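import Pool.Agent.H.MP_31a675_nt.Y.MainD

/-!
# Arithmetic degrees of polynomial maps with prescribed degrees of the components
-/

set_option autoImplicit false

open Pool.Agent.H.MP_31a675_nt Pool.Agent.H.MP_31a675_nt.Y MvPolynomial Filter Topology

namespace Pool.Agent.Results.MP_31a675_nt.ComponentDegrees

theorem result (K : Type) [Field K] [NumberField K] (N : ℕ) (D : Fin N → ℕ) (d : ℕ)
    (hD : Degs D d) (f : Fin N → MvPolynomial (Fin N) K) (hf : Gen D d f) :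
    (∀ n, degIt f n = d ^ n) ∧
    ∀ x : Fin N → K, ∃ α : ℕ, (α = 1 ∨ ∃ i, α = D i) ∧
      Tendsto (fun n : ℕ => (max (ht (orb f x n)) 1) ^ ((1 : ℝ) / n)) atTop (𝓝 (α : ℝ)) ∧
      (DenseOrbit f x → α = d) ∧
      DimLe f x (Fintype.card {i // D i ≤ α}) ∧
      ∀ (S : Set ℕ) (p : Ideal (MvPolynomial (Fin N) K)), p.IsPrime → VanAt f x S p →
        (∀ y : Fin N → K, ∃ P : MvPolynomial (Fin N) K, eval y P = 0 ∧ P ∉ p) →
        ∀ β : ℝ, 1 ≤ β → (DegLe f p β ↔ (α : ℝ) ≤ β) :=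
  ⟨degIt_eq hD hf, main_all hD hf⟩

end Pool.Agent.Results.MP_31a675_nt.ComponentDegrees
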