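import Pool.Agent.H.MP_31a675_nt.W.GapP

/-!
# Heights along dense orbits of rational self-maps of projective varieties
-/

set_option autoImplicit false

open Pool.Agent.H.MP_31a675_nt Pool.Agent.H.MP_31a675_nt.W MvPolynomial Filter Topology

namespace Pool.Agent.Results.MP_31a675_nt.DenseOrbitHeightGap

theorem result (N d g : ℕ) (hN : 1 ≤ N) (hd : 1 ≤ d) : ∃ γ : ℝ, 0 < γ ∧
    ∀ (K : Type) [Field K] [NumberField K], Module.finrank ℚ K = g →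
    ∀ p : Ideal (MvPolynomial (Fin (N + 1)) K), p.IsPrime → IsHom p →
    ∀ F : Fin (N + 1) → MvPolynomial (Fin (N + 1)) K, (∀ i, (F i).IsHomogeneous d) →
    ∀ δ₁ : ℝ, 1 < δ₁ → Tendsto (fun n : ℕ => (degX p F n : ℝ) ^ ((1 : ℝ) / n)) atTop (𝓝 δ₁) →
    ∃ T₀ : ℕ, ∀ x : Fin (N + 1) → K, (∀ n, orb F x n ≠ 0) → DenseIn p F x →
      ∀ T, T₀ ≤ T → ∃ n ≤ T, (T : ℝ) ^ γ < Height.logHeight (orb F x n) :=
  gapP N d g hN hd

end Pool.Agent.Results.MP_31a675_nt.DenseOrbitHeightGap
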