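import Pool.Agent.H.MP_31a675_nt.W.FMain

/-!
# Arithmetic degrees for families of endomorphisms of projective space over a translation
-/

set_option autoImplicit false

open Pool.Agent.H.MP_31a675_nt Pool.Agent.H.MP_31a675_nt.W MvPolynomial Filter Topology

namespace Pool.Agent.Results.MP_31a675_nt.SkewTranslation

theorem result (K : Type) [Field K] [NumberField K] (k : ℕ) (hk : 1 ≤ k) (d : ℕ) (hd : 2 ≤ d)
    (G : Fin (k + 1) → MvPolynomial (Fin (k + 2)) K)
    (hG : ∀ i, IsWeightedHomogeneous (wF k) (G i) d) (hz : NoZero G) :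
    Tendsto (fun n : ℕ => (degF G n : ℝ) ^ ((1 : ℝ) / n)) atTop (𝓝 (d : ℝ)) ∧
    ∀ x : Fin (k + 2) → K, (∀ n, yo G x n ≠ 0) →
      Tendsto (fun n : ℕ => (max (htF (orb (skew G) x n)) 1) ^ ((1 : ℝ) / n)) atTop
          (𝓝 (d : ℝ)) ∨
        ((∃ B : ℝ, ∀ n : ℕ, htF (orb (skew G) x n) ≤ B * Real.log ((n : ℝ) + 2)) ∧
          OnCurve (orb (skew G) x)) :=
  ⟨degF_lim hk G d hd hG hz, fun x hx => ksc_all hk G d hd hG hz x hx⟩

end Pool.Agent.Results.MP_31a675_nt.SkewTranslation
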