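import Pool.Agent.H.MP_31a675_nt.All

/-!
# Arithmetic degrees for skew products over a translation; heights along dense orbits
-/

set_option autoImplicit false

open Pool.Agent.H.MP_31a675_nt Filter Topology

namespace Pool.Agent.Results.MP_31a675_nt.TranslationSkew

theorem result :
    (∀ (K : Type) [Field K] [NumberField K] (k d : ℕ) (F : Fin k → MvPolynomial (Fin (k + 1)) K),
      1 ≤ k → 2 ≤ d → Polar F d ∨ Regular F d →
        Tendsto (fun n : ℕ => (degIt (skew F) n : ℝ) ^ ((1 : ℝ) / n)) atTop (𝓝 (d : ℝ)) ∧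
        ∀ x : Fin (k + 1) → K,
          Tendsto (fun n : ℕ => (max (ht (orb (skew F) x n)) 1) ^ ((1 : ℝ) / n)) atTop
            (𝓝 (d : ℝ)) ∨
          ((∃ B : ℝ, ∀ n : ℕ, ht (orb (skew F) x n) ≤ B * Real.log ((n : ℝ) + 2)) ∧
            ¬ DenseOrbit (skew F) x)) ∧
    (∀ (K : Type) [Field K] [NumberField K] (N : ℕ) (φ : Fin N → MvPolynomial (Fin N) K)
      (x : Fin N → K), 2 ≤ N → DenseOrbit φ x → ∀ C γ : ℝ, γ < 1 - 1 / N →
        ∃ᶠ n : ℕ in atTop, C * (n : ℝ) ^ γ < ht (orb φ x n)) :=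
  ⟨fun _ _ _ _ d F hk hd hF =>
      ⟨degIt_lim F d hd hk hF, fun x => all_points F d hd hk hF x⟩,
    fun _ _ _ _ φ x hN hx C γ hγ => gap_all hN φ x hx C γ hγ⟩

end Pool.Agent.Results.MP_31a675_nt.TranslationSkew
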